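import Mathlib
import Pool.Agent.Run7.h162.CH.Fin2
import Pool.Agent.Run7.h162.SD.Bc

/-!
# Q1 depends only on the characteristic

The growth rate of a finite scheme `Γ` over `k` is the infimum over `n ≥ 1` of the `n`-th roots of
`(deg Γ)^n + δ(Γ^n)`. The growth rate of a finite scheme does not change under extensions of
algebraically closed fields, and the growth rates of the local schemes of degree `d` over the larger
field are limits of growth rates over the smaller one.
-/

set_option autoImplicit false

namespace Pool.Agent.Results.MP_44217d_ag.Characteristic

open Pool.Agent.H826R3.SM Pool.Agent.TH671.DU Pool.Agent.N86.SQ Pool.Agent.Run7.h162.CH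
open Filter Topology TensorProduct

/-- Q1 holds for all finite schemes over `k`. -/
def QOneOver (k : Type) [Field k] : Prop :=
  ∀ (A : Type) [CommRing A] [Algebra k A] [Module.Finite k A] [Nontrivial A], QOne k A

/-- Q1 holds for all local finite schemes of degree `d` over `k`. -/
def QOneDegree (k : Type) [Field k] (d : ℕ) : Prop :=
  ∀ (A : Type) [CommRing A] [Algebra k A] [Module.Finite k A] [IsLocalRing A],
    Module.finrank k A = d → QOne k A

/-- Let `k` and `K` be algebraically closed fields of the same characteristic `p ≥ 0`.

* Q1 holds for all finite `k`-schemes if and only if it holds for all finite `K`-schemes.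
* For every `d`, Q1 holds for the local `k`-schemes of degree `d` if and only if it holds for the
  local `K`-schemes of degree `d`. The sets of the growth rates of the local schemes of degree `d`
  over `k` and over `K` have the same closure. If `K` is uncountable, then the set over `K` is
  compact, so it is this closure.
* If `K` is an extension of `k` and `Γ = Spec A` is a nonempty finite `k`-scheme, then the
  `K`-scheme `Γ_K` has the same growth rate as `Γ`, and Q1 holds for `Γ_K` if and only if it holds
  for `Γ`. -/
theorem result (p : ℕ) (k K : Type) [Field k] [IsAlgClosed k] [CharP k p] [Field K]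
    [IsAlgClosed K] [CharP K p] :
    (QOneOver k ↔ QOneOver K) ∧
    (∀ d : ℕ, (QOneDegree k d ↔ QOneDegree K d) ∧
      closure (growthRates k d) = closure (growthRates K d) ∧
      (Uncountable K → IsCompact (growthRates K d))) ∧
    ∀ [Algebra k K] (A : Type) [CommRing A] [Algebra k A] [Module.Finite k A] [Nontrivial A],
      rate K (K ⊗[k] A) = rate k A ∧ (QOne K (K ⊗[k] A) ↔ QOne k A) := by
  refine ⟨qOneAll_char p k K, fun d => ⟨qOneLocal_char p k K d, closure_growthRates_eq p k K d,
    fun hK => ?_⟩, ?_⟩
  · have h2 : BddBelow (growthRates K d) := by
      refine ⟨1, ?_⟩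
      rintro x ⟨A, _, _, hA1, hA2, hA3, rfl⟩
      exact one_le_rate (k := K) A
    exact Metric.isCompact_of_isClosed_isBounded (isClosed_growthRates K d)
      (isBounded_iff_bddBelow_bddAbove.2 ⟨h2, bddAbove_growthRates K d⟩)
  · intro _ A _ _ _ _
    have h1 : Nontrivial (K ⊗[k] A) := nontrivial_baseChange k K A
    have h2 := Pool.Agent.Run7.h162.SD.rate_baseChange_all k K A
    refine ⟨h2, ?_⟩
    rw [qOne_iff_rate, qOne_iff_rate, h2, Module.finrank_baseChange]

end Pool.Agent.Results.MP_44217d_ag.Characteristic
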