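import Mathlib
import Pool.Agent.Run7.h162.SD.Largest

/-!
# Strassen duality for finite schemes

The growth rate of a finite scheme `Γ` is the infimum over `n ≥ 1` of the `n`-th roots of
`(deg Γ)^n + δ(Γ^n)`; Q1 says that it is `deg Γ`. We show that it is the greatest value at `Γ` of
the dimension functions on finite schemes. So Q1 says that the degree is the largest dimension
function.
-/

set_option autoImplicit false

namespace Pool.Agent.Results.MP_44217d_ag.DimensionFunctions

open Pool.Agent.H826R3.SM Pool.Agent.TH671.DU Pool.Agent.N86.SQ Pool.Agent.Run7.h162.SD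

/-- (1) Duality. The growth rate of a nonempty finite scheme is the greatest value of the dimension
functions at it. It is even attained by a dimension function `F` which is monotone for subquotients
(`F Y ≤ F Z` if the ring of `Y` is a quotient of a subalgebra of the ring of `Z`) and for the
dominance preorder (`F Y ≤ F Z` if `mu Y W ≤ mu Z W` for all `W`). Q1 holds for `X` if and only if
`F X ≤ deg X` for all dimension functions `F`. -/
def Duality (k : Type) [Field k] : Prop :=
  ∀ X : FSch k, Nontrivial X.A →
    IsGreatest {x : ℝ | ∃ F : FSch k → ℝ, IsDimFun F ∧ F X = x} (rate k X.A) ∧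
    (∃ F : FSch k → ℝ, IsDimFun F ∧ F X = rate k X.A ∧
      (∀ Y Z : FSch k, IsSubquotient k Y.A Z.A → F Y ≤ F Z) ∧
      ∀ Y Z : FSch k, (∀ W : FSch k, mu Y W ≤ mu Z W) → F Y ≤ F Z) ∧
    (QOne k X.A ↔ ∀ F : FSch k → ℝ, IsDimFun F → F X ≤ Module.finrank k X.A)

/-- (2) The degree is a dimension function. Q1 holds for all finite schemes if and only if it is the
largest one. The growth rate is additive for disjoint unions if and only if it is multiplicative for
products, if and only if it is a dimension function, if and only if there is a largest dimension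
function. -/
def Largest (k : Type) [Field k] : Prop :=
  (IsDimFun fun X : FSch k => (Module.finrank k X.A : ℝ)) ∧
  ((∀ (A : Type) [CommRing A] [Algebra k A] [Module.Finite k A] [Nontrivial A], QOne k A) ↔
    ∀ F : FSch k → ℝ, IsDimFun F → ∀ X : FSch k, F X ≤ Module.finrank k X.A) ∧
  List.TFAE [
    ∀ X Y : FSch k, Nontrivial X.A → Nontrivial Y.A →
      rate k (X.union Y).A = rate k X.A + rate k Y.A,
    ∀ X Y : FSch k, Nontrivial X.A → Nontrivial Y.A →
      rate k (X.prod Y).A = rate k X.A * rate k Y.A,
    IsDimFun fun X : FSch k => rate k X.A,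
    ∃ F : FSch k → ℝ, IsDimFun F ∧ ∀ G : FSch k → ℝ, IsDimFun G → ∀ X, G X ≤ F X]

/-- (3) The same for given nonempty schemes: for a nonempty list of them the growth rate of the
disjoint union is the sum of the growth rates if and only if the growth rate of the product is the
product of the growth rates, if and only if one dimension function attains all these growth rates. -/
def Lists (k : Type) [Field k] : Prop :=
  ∀ L : List (FSch k), (∀ X ∈ L, Nontrivial X.A) → L ≠ [] → List.TFAE [
    rate k (FSch.unions L).A = (L.map fun X => rate k X.A).sum,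
    rate k (FSch.prods L).A = (L.map fun X => rate k X.A).prod,
    ∃ F : FSch k → ℝ, IsDimFun F ∧ ∀ X ∈ L, F X = rate k X.A]

/-- (4) For nonempty schemes `X 0, …, X (m - 1)` the set of the vectors `(F (X i))_i`, `F` a
dimension function, is compact, and for every nonzero polynomial with nonnegative integer
coefficients (given as a list of words `P`) the growth rate of its value `polySch X P` at the schemes
is the greatest of its values `polyVal x P` on this set. -/
def Polynomials (k : Type) [Field k] : Prop :=
  ∀ (m : ℕ) (X : Fin m → FSch k), (∀ i, Nontrivial (X i).A) →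
    IsCompact {x : Fin m → ℝ | ∃ F : FSch k → ℝ, IsDimFun F ∧ ∀ i, x i = F (X i)} ∧
    ∀ P : List (List (Fin m)), P ≠ [] →
      IsGreatest ((fun x => polyVal x P) ''
        {x : Fin m → ℝ | ∃ F : FSch k → ℝ, IsDimFun F ∧ ∀ i, x i = F (X i)})
        (rate k (polySch X P).A)

/-- (5) Comparison. For `c ≥ 0` and `Y` nonempty: `F X ≤ c * F Y` for all dimension functions `F`
which are monotone for the dominance preorder if and only if for every `η > 0` there is an `N ≥ 1`
with `mu (X^N) Z ≤ (c + η)^N * mu (Y^N) Z` for all `Z`. -/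
def Comparison (k : Type) [Field k] : Prop :=
  ∀ (X Y : FSch k) (c : ℝ), Nontrivial Y.A → 0 ≤ c →
    ((∀ F : FSch k → ℝ, IsDimFun F →
        (∀ X' Y' : FSch k, (∀ W : FSch k, mu X' W ≤ mu Y' W) → F X' ≤ F Y') → F X ≤ c * F Y) ↔
      ∀ η : ℝ, 0 < η → ∃ N : ℕ, 1 ≤ N ∧ ∀ Z : FSch k,
        (mu ⟨Pow k X.A N⟩ Z : ℝ) ≤ (c + η) ^ N * (mu ⟨Pow k Y.A N⟩ Z : ℝ))

/-- `k` is an algebraically closed field of any characteristic and `FSch k` is the class of finite
`k`-schemes `X = Spec X.A`. `rate k X.A` is the growth rate of `X` and `mu X Y` is the least degree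
of a finite smoothable scheme which contains `X × Y`, i.e. `deg (X × Y) + δ (X × Y)`. A dimension
function (`IsDimFun F`) is a map `F : FSch k → ℝ` with `F (point) = 1`, `F (X ⊔ Y) = F X + F Y`,
`F (X × Y) = F X * F Y`, `F X ≤ F Y` for closed subschemes `X` of `Y`, and `F X ≤ deg X` for
smoothable `X`. The parts are the definitions above; the last part says that `mu X Y` is
`deg (X × Y) + δ (X × Y)`. -/
theorem result (k : Type) [Field k] [IsAlgClosed k] :
    Duality k ∧ Largest k ∧ Lists k ∧ Polynomials k ∧ Comparison k ∧
    ∀ X Y : FSch k, mu X Y = Module.finrank k (X.prod Y).A + defect k (X.prod Y).A := by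
  refine ⟨fun X hX => ⟨isGreatest_dim X, ?_, qOne_iff_dim X⟩,
    ⟨isDimFun_finrank, qOneAll_iff_dim, tfae_largest⟩, fun L hL hne => tfae_list hL hne,
    fun m X hX => ⟨isCompact_spectrum X, fun P hP => isGreatest_poly X hX P hP⟩, ?_, ?_⟩
  · obtain ⟨F, hF, h1⟩ := exists_dim_eq_rate X
    exact ⟨F, hF.1, h1, fun Y Z h => hF.2 Y Z (leS_of_subquotient h), fun Y Z h => hF.2 Y Z h⟩
  · intro X Y c hY hc
    rw [← rel_iff X Y hc]
    exact ⟨fun h F hF => h F hF.1 hF.2, fun h F hF hF' => h F ⟨hF, hF'⟩⟩
  · intro X Y
    exact (fadd k (X.prod Y).A).symm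

end Pool.Agent.Results.MP_44217d_ag.DimensionFunctions
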