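import Pool.Agent.Run7.h162.OS.Ext

/-!
# Q1 for the generic members of a linear system of forms

Let `Ψ i` (`i ∈ ι`) be finitely many elements of Macaulay's inverse system (the dual of the polynomial
ring `k[σ]`) with finitely many terms. For `c ∈ k ^ ι` let `Γ_c` be the Gorenstein scheme with the
dual generator `∑ c_i Ψ_i` (its coordinate ring is `S / Ann`). All forms of degree `s` in `v`
variables, or all forms with given exponents, are such systems (with zero-one functionals `Ψ i`).

For a word `w ∈ ι ^ n` let `Ω_w` be the sum of all different products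
`Ψ_{f 1}(x_1) ⋯ Ψ_{f n}(x_n)` in disjoint sets of variables, `f` a rearrangement of `w`. For the
system of all forms with given exponents the `Ω_w` are explicit zero-one functionals, the same over
all fields. We show that the growth rates (the limits of `(deg Γ^n + δ(Γ^n))^{1/n}`) of all `Γ_c` are
governed by the growth rates of the countably many schemes with the dual generators `Ω_w`. So Q1 for
the generic members of the system (those of the largest degree) is a statement on these schemes; it
suffices to prove Q1 for a Zariski dense set of members, and it then follows over all algebraically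
closed extensions of `k`.

Proof. `(∑ c_i Ψ_i)^{⊗ n} = ∑_τ c^τ Ω_τ`, `τ` the types of the words, at most `(n + 1) ^ |ι|` of
them. Conversely `Ω_τ` is a linear combination of at most `(n + 1) ^ |ι|` powers
`(∑ c_i Ψ_i)^{⊗ n}`, with `c` in a given Zariski dense set. A linear combination of dual generators
defines a closed subscheme of the union of the schemes, whose growth rate is at most the sum of their
growth rates, and the growth rate of `Γ^n` is the `n`-th power of that of `Γ`.
-/

set_option autoImplicit false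

namespace Pool.Agent.Results.MP_44217d_ag.GenericForms

open Pool.Agent.H826R3.SM Pool.Agent.TH671.DU Pool.Agent.Run7.h162.OS
open MvPolynomial

open Classical in
/-- `k` is an algebraically closed field of any characteristic. Notation (definitions in
`Pool.Agent.Run7.h162.OS` and `Pool.Agent.H826R3.SM`): `terms Φ` is the set of the exponents of the
terms of `Φ`, `ApolarAlg Φ` is the coordinate ring `S / Ann Φ` of the scheme `Γ` with the dual
generator `Φ`, its degree is its dimension; `rate` is the infimum over `n ≥ 1` of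
`(deg Γ^n + δ(Γ^n))^(1/n)`; `QOne` is Q1 for the scheme; `lin Ψ c = ∑ i, c i • Ψ i`; `orbitSum Ψ w`
is the sum over all rearrangements `f` of the word `w` of the products of the `Ψ (f l)` in disjoint
sets of variables; `ZDense Z`: every polynomial which vanishes on `Z` is `0`; `extF K Φ` is the
functional over `K` with the same values on the monomials; `dualMon k u` is the functional with the
value `1` at the monomial with the exponent `u` and the value `0` at the other ones.

For a linear system `Ψ i`, `i ∈ ι`, of functionals with finitely many terms, `m = |ι|`: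
(1) for every `n ≥ 1`, if the growth rates of all `Ω_w`, `w` of length `n`, are at most `x` then
those of all members `c` of the system satisfy `rate ^ n ≤ (n + 1) ^ m * x`; if the latter satisfy
`rate ^ n ≤ x` then those of the `Ω_w` are at most `(n + 1) ^ m * x`.
(2) For `ρ > 0` equivalent: all members have growth rate at most `ρ`; a Zariski dense set of members
has; the growth rates of the `Ω_w`, `w` of length `n`, are at most `(n + 1) ^ m * ρ ^ n`; for every
`η > 0` they are at most `C * (ρ + η) ^ n`.
(3) Let `D` be the largest degree of a member. Equivalent: Q1 holds for all members of degree `D`;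
Q1 holds for a Zariski dense set of members; all members have growth rate at most `D`; the growth
rates of the `Ω_w`, `w` of length `n`, are at most `(n + 1) ^ m * D ^ n`; for every `η > 0` they are
at most `C * (D + η) ^ n`; for all algebraically closed extension fields `K` of `k` Q1 holds for all
members of degree `D` of the linear system over `K`.
(4) For a finite set `E` of exponents the linear system of the `dualMon k u`, `u ∈ E`, consists of
all functionals with terms in `E`, and `Ω_w` has the value `1` at the monomials with the exponents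
`(w (π 1), …, w (π n))`, `π` a permutation, and the value `0` at the other ones. -/
theorem result (k : Type) [Field k] [IsAlgClosed k] :
    (∀ (σ ι : Type) [Finite σ] [Fintype ι] (Ψ : ι → (MvPolynomial σ k →ₗ[k] k)),
      (∀ i, (terms (Ψ i)).Finite) →
      (∀ (n : ℕ) (x : ℝ), 1 ≤ n → 0 ≤ x →
        ((∀ w : Fin n → ι, orbitSum Ψ w ≠ 0 → rate k (ApolarAlg (orbitSum Ψ w)) ≤ x) →
          ∀ c : ι → k, lin Ψ c ≠ 0 →
            rate k (ApolarAlg (lin Ψ c)) ^ n ≤ (n + 1) ^ Fintype.card ι * x) ∧
        ((∀ c : ι → k, lin Ψ c ≠ 0 → rate k (ApolarAlg (lin Ψ c)) ^ n ≤ x) →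
          ∀ w : Fin n → ι, orbitSum Ψ w ≠ 0 →
            rate k (ApolarAlg (orbitSum Ψ w)) ≤ (n + 1) ^ Fintype.card ι * x)) ∧
      (∀ ρ : ℝ, 0 < ρ → List.TFAE [
        ∀ c : ι → k, lin Ψ c ≠ 0 → rate k (ApolarAlg (lin Ψ c)) ≤ ρ,
        ∃ Z : Set (ι → k), ZDense Z ∧ ∀ c ∈ Z, lin Ψ c ≠ 0 → rate k (ApolarAlg (lin Ψ c)) ≤ ρ,
        ∀ n : ℕ, 1 ≤ n → ∀ w : Fin n → ι, orbitSum Ψ w ≠ 0 →
          rate k (ApolarAlg (orbitSum Ψ w)) ≤ (n + 1) ^ Fintype.card ι * ρ ^ n,
        ∀ η : ℝ, 0 < η → ∃ C : ℝ, ∀ n : ℕ, 1 ≤ n → ∀ w : Fin n → ι, orbitSum Ψ w ≠ 0 →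
          rate k (ApolarAlg (orbitSum Ψ w)) ≤ C * (ρ + η) ^ n]) ∧
      (∀ D : ℕ, IsGreatest {d : ℕ | ∃ c : ι → k, lin Ψ c ≠ 0 ∧
          Module.finrank k (ApolarAlg (lin Ψ c)) = d} D → List.TFAE [
        ∀ c : ι → k, lin Ψ c ≠ 0 → Module.finrank k (ApolarAlg (lin Ψ c)) = D →
          QOne k (ApolarAlg (lin Ψ c)),
        ∃ Z : Set (ι → k), ZDense Z ∧ ∀ c ∈ Z, lin Ψ c ≠ 0 → QOne k (ApolarAlg (lin Ψ c)),
        ∀ c : ι → k, lin Ψ c ≠ 0 → rate k (ApolarAlg (lin Ψ c)) ≤ D,
        ∀ n : ℕ, 1 ≤ n → ∀ w : Fin n → ι, orbitSum Ψ w ≠ 0 →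
          rate k (ApolarAlg (orbitSum Ψ w)) ≤ (n + 1) ^ Fintype.card ι * (D : ℝ) ^ n,
        ∀ η : ℝ, 0 < η → ∃ C : ℝ, ∀ n : ℕ, 1 ≤ n → ∀ w : Fin n → ι, orbitSum Ψ w ≠ 0 →
          rate k (ApolarAlg (orbitSum Ψ w)) ≤ C * (D + η) ^ n,
        ∀ (K : Type) [Field K] [IsAlgClosed K] [Algebra k K] (c : ι → K),
          lin (fun i => extF K (Ψ i)) c ≠ 0 →
          Module.finrank K (ApolarAlg (lin (fun i => extF K (Ψ i)) c)) = D →
            QOne K (ApolarAlg (lin (fun i => extF K (Ψ i)) c))])) ∧
    (∀ (σ : Type) (E : Finset (σ →₀ ℕ)),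
      (∀ Φ : MvPolynomial σ k →ₗ[k] k, terms Φ ⊆ (E : Set (σ →₀ ℕ)) ↔
        ∃ c : E → k, Φ = lin (fun u : E => dualMon k u.1) c) ∧
      ∀ (n : ℕ) (w : Fin n → E) (t : Fin n × σ →₀ ℕ),
        orbitSum (fun u : E => dualMon k u.1) w (monomial t 1) =
          if ∃ π : Equiv.Perm (Fin n), ∀ l, part t l = (w (π l)).1 then 1 else 0) := by
  refine ⟨?_, fun σ E => ⟨terms_subset_iff E, fun n w t =>
    orbitSum_dualMon (fun u : E => u.1) Subtype.val_injective w t⟩⟩
  intro σ ι _ _ Ψ hΨ
  refine ⟨fun n x hn hx => level Ψ hΨ hn hx, fun ρ hρ => tfae_rate Ψ hΨ hρ, fun D hD => ?_⟩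
  have T := tfae_qOne Ψ hΨ hD
  have h1 := T.out 0 1
  have h2 := T.out 0 2
  have h3 := T.out 0 3
  have h4 := T.out 0 4
  have hD0 : 0 < D := by
    obtain ⟨c₁, h₁, hc₁⟩ := hD.1
    have := finite_apolar _ (terms_lin Ψ hΨ c₁)
    have := nontrivial_apolar h₁
    rw [← hc₁]
    exact Module.finrank_pos
  tfae_have 1 ↔ 2 := h1
  tfae_have 1 ↔ 3 := h2
  tfae_have 1 ↔ 4 := h3
  tfae_have 1 ↔ 5 := h4
  tfae_have 3 → 6 := by
    intro h K _ _ _ c hc hcD
    have h5 := rate_ext (K := K) Ψ hΨ (by exact_mod_cast hD0 : (0 : ℝ) < D) h c hc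
    have := finite_apolar _ (terms_lin (fun i => extF K (Ψ i)) (fun i => by
      rw [terms_extF]
      exact hΨ i) c)
    have := nontrivial_apolar hc
    rw [qOne_iff_rate, hcD]
    refine le_antisymm h5 ?_
    rw [← hcD]
    exact finrank_le_rate _
  tfae_have 6 → 1 := by
    intro h c hc hcD
    have h6 : (fun i => extF k (Ψ i)) = Ψ := by
      funext i
      exact fnl_ext fun t => extF_monomial (Ψ i) t
    have h7 := h k c
    rw [h6] at h7
    exact h7 hc hcD
  tfae_finish

end Pool.Agent.Results.MP_44217d_ag.GenericForms
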