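import Mathlib
import Pool.Agent.Run7.h162.CH.Wf

/-!
# The maximal growth rate of the local schemes of given degree in given characteristic

The growth rate of a finite scheme `Γ` over `k` is the infimum over `n ≥ 1` of the `n`-th roots of
`(deg Γ)^n + δ(Γ^n)`. Let `M(d, p)` be the supremum of the growth rates of the local schemes of
degree `d` over the algebraically closed fields of characteristic `p`. Q1 for the local schemes of
degree `d` in characteristic `p` says that `M(d, p) = d`.
-/

set_option autoImplicit false

namespace Pool.Agent.Results.MP_44217d_ag.MaximalRate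

open Pool.Agent.H826R3.SM Pool.Agent.TH671.DU Pool.Agent.N86.SQ Pool.Agent.Run7.h162.CH
open Filter Topology

/-- Q1 holds for all local finite schemes of degree `d` over `k`. -/
def QOneDegree (k : Type) [Field k] (d : ℕ) : Prop :=
  ∀ (A : Type) [CommRing A] [Algebra k A] [Module.Finite k A] [IsLocalRing A],
    Module.finrank k A = d → QOne k A

/-- `d^n + δ(Γ^n) ≤ C x^n` for all local schemes `Γ` of degree `d` over all algebraically closed
fields of characteristic `p` -/
def Bound (d p n : ℕ) (C x : ℝ) : Prop :=
  ∀ (k A : Type) [Field k] [IsAlgClosed k] [CharP k p] [CommRing A] [Algebra k A]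
    [Module.Finite k A] [IsLocalRing A], Module.finrank k A = d →
      (d : ℝ) ^ n + defect k (Pow k A n) ≤ C * x ^ n

/-- `d^n + δ(Γ^n) < x^n` for all local schemes `Γ` of degree `d` over all algebraically closed
fields of characteristic `p` -/
def StrictBound (d p n : ℕ) (x : ℝ) : Prop :=
  ∀ (k A : Type) [Field k] [IsAlgClosed k] [CharP k p] [CommRing A] [Algebra k A]
    [Module.Finite k A] [IsLocalRing A], Module.finrank k A = d →
      (d : ℝ) ^ n + defect k (Pow k A n) < x ^ n

/-- Let `d ≥ 1` and let `M(d, p) = maxRate d p` be the supremum of the growth rates of the local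
schemes of degree `d` over the algebraically closed fields of characteristic `p`.

* Let `k` be algebraically closed of characteristic `p`. Then `M(d, p)` is the supremum of the growth
  rates of the local `k`-schemes of degree `d`; if `k` is uncountable, then it is the growth rate of
  such a scheme `Γ₀`. Q1 holds for the local `k`-schemes of degree `d` if and only if
  `M(d, p) = d`.
* For `x > 0`, `M(d, p) < x` if and only if there is a power `n ≥ 1` with `d^n + δ(Γ^n) < x^n` for
  all local schemes `Γ` of degree `d` over all algebraically closed fields of characteristic `p`; then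
  there is a constant `C` with `d^n + δ(Γ^n) ≤ C x^n` for all these `Γ` and all `n`.
* The set `allRates d p` of the growth rates of the local schemes of degree `d` over all algebraically
  closed fields of characteristic `p` is compact and well-ordered (there are no strictly decreasing
  sequences in it), so there is an `ε > 0` such that it contains no number strictly between `d` and
  `d + ε`.
* If `M(d, 0) < x`, then there are `C` and `p₀` such that for all `q ≥ p₀` one has `M(d, q) < x` and
  `d^n + δ(Γ^n) ≤ C x^n` for all `n` and all local `Γ` of degree `d` over algebraically closed fields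
  of characteristic `q`.
* If Q1 holds for the local schemes of degree at most `D` over an algebraically closed field of
  characteristic `0`, then for every `ε > 0` the limit in Q1 for `ε` is `0` for all finite schemes of
  degree at most `D` over the algebraically closed fields of sufficiently large characteristic. -/
theorem result (d p : ℕ) (hd : 1 ≤ d) :
    (∀ (k : Type) [Field k] [IsAlgClosed k] [CharP k p],
      IsLUB (growthRates k d) (maxRate d p) ∧
      (Uncountable k → ∃ (A₀ : Type) (_ : CommRing A₀) (_ : Algebra k A₀), Module.Finite k A₀ ∧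
        IsLocalRing A₀ ∧ Module.finrank k A₀ = d ∧ rate k A₀ = maxRate d p) ∧
      (QOneDegree k d ↔ maxRate d p = d)) ∧
    (∀ x : ℝ, 0 < x → (maxRate d p < x ↔ ∃ n : ℕ, 1 ≤ n ∧ StrictBound d p n x)) ∧
    (∀ x : ℝ, maxRate d p < x → ∃ C : ℝ, ∀ n : ℕ, Bound d p n C x) ∧
    (IsCompact (allRates d p) ∧ (allRates d p).IsWF ∧
      ∃ ε : ℝ, 0 < ε ∧ ∀ y ∈ allRates d p, ¬ ((d : ℝ) < y ∧ y < d + ε)) ∧
    (∀ x : ℝ, maxRate d 0 < x → ∃ (C : ℝ) (p₀ : ℕ), ∀ q : ℕ, p₀ ≤ q →
      maxRate d q < x ∧ ∀ n : ℕ, Bound d q n C x) ∧
    ∀ (K : Type) [Field K] [IsAlgClosed K] [CharZero K] (D : ℕ), (∀ e ≤ D, QOneDegree K e) →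
      ∀ ε : ℝ, 0 < ε → ∃ p₀ : ℕ, ∀ q : ℕ, p₀ ≤ q →
      ∀ (k A : Type) [Field k] [IsAlgClosed k] [CharP k q] [CommRing A] [Algebra k A]
        [Module.Finite k A] [Nontrivial A], Module.finrank k A ≤ D →
        Tendsto (fun n : ℕ => (defect k (Pow k A n) : ℝ) /
          (Module.finrank k A : ℝ) ^ ((1 + ε) * (n : ℝ))) atTop (𝓝 0) := by
  refine ⟨fun k _ _ _ => ⟨isLUB_maxRate k p hd, fun hk => ?_, maxRate_qOne k p hd⟩,
    fun x hx => maxRate_lt_iff hx, fun x hx => ?_, ?_, fun x hx => ?_,
    fun K _ _ _ D h ε hε => limit_large K D h ε hε⟩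
  · exact maxRate_mem k p hd
  · obtain ⟨C, hC⟩ := maxRate_bound hx
    exact ⟨C, fun n k A _ _ _ _ _ _ _ hA => hC k A hA n⟩
  · obtain ⟨ε, hε, h1⟩ := allRates_gap d p d
    exact ⟨(allRates_isWF d p).2, (allRates_isWF d p).1, ε, hε, fun y hy h2 =>
      absurd (h1 y hy h2.2) (not_le.2 h2.1)⟩
  · obtain ⟨C, p₀, h1, h2⟩ := maxRate_large hx
    exact ⟨C, p₀, fun q hq => ⟨h1 q hq, fun n k A _ _ _ _ _ _ _ hA =>
      h2 q (Or.inr hq) k A hA n⟩⟩

end Pool.Agent.Results.MP_44217d_ag.MaximalRate
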